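import Mathlib.Computability.RegularExpressions
import Mathlib.Data.Countable.Basic
import Mathlib.Tactic

/-!
# Conjunctive queries of the logic FC with regular constraints

Formulas, satisfaction, languages; renaming of variables; a few regular expressions.
-/

namespace Pool.Agent.W5h76.FC

/-- A conjunctive query of FC with regular constraints over the variables `V` and the letters `A`:
a finite list of word equations `x = α`, where `α` is a pattern (a word over variables and letters),
and a finite list of regular constraints `y ∈ γ`. -/
structure CQ (V A : Type) where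
  /-- the word equations `x = α` -/
  eqs : List (V × List (V ⊕ A))
  /-- the regular constraints `y ∈ γ` -/
  regs : List (V × RegularExpression A)

/-- The image of a pattern under the morphism which maps a variable `x` to `σ x` and fixes the
letters. -/
def ev {V A : Type} (σ : V → List A) (α : List (V ⊕ A)) : List A :=
  α.flatMap (Sum.elim σ (fun a => [a]))

/-- The substitution `σ` satisfies all equations and all regular constraints. -/
def Sat {V A : Type} (φ : CQ V A) (σ : V → List A) : Prop :=
  (∀ e ∈ φ.eqs, σ e.1 = ev σ e.2) ∧ ∀ r ∈ φ.regs, σ r.1 ∈ r.2.matches'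

/-- The language of `φ`: the words `σ w` for all satisfying substitutions `σ` such that `σ x` is a
factor of `σ w` for every variable `x`. -/
def lang {V A : Type} (w : V) (φ : CQ V A) : Set (List A) :=
  {u | ∃ σ : V → List A, (∀ x, σ x <:+: σ w) ∧ Sat φ σ ∧ σ w = u}

variable {V W A : Type}

@[simp] lemma ev_nil (σ : V → List A) : ev σ [] = [] := rfl

@[simp] lemma ev_cons_inl (σ : V → List A) (x : V) (α : List (V ⊕ A)) :
    ev σ (Sum.inl x :: α) = σ x ++ ev σ α := by
  simp [ev]

@[simp] lemma ev_cons_inr (σ : V → List A) (a : A) (α : List (V ⊕ A)) :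
    ev σ (Sum.inr a :: α) = a :: ev σ α := by
  simp [ev]

/-- renaming of the variables -/
def CQ.map (f : V → W) (φ : CQ V A) : CQ W A where
  eqs := φ.eqs.map fun e => (f e.1, e.2.map (Sum.map f id))
  regs := φ.regs.map fun r => (f r.1, r.2)

lemma ev_map (f : V → W) (σ : W → List A) (α : List (V ⊕ A)) :
    ev σ (α.map (Sum.map f id)) = ev (fun x => σ (f x)) α := by
  induction α with
  | nil => rfl
  | cons s α ih => rcases s with x | a <;> simp [ih]

lemma sat_map (f : V → W) (φ : CQ V A) (σ : W → List A) :
    Sat (φ.map f) σ ↔ Sat φ (fun x => σ (f x)) := by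
  unfold Sat CQ.map
  constructor
  · rintro ⟨h1, h2⟩
    refine ⟨fun e he => ?_, fun r hr => ?_⟩
    · have := h1 _ (List.mem_map_of_mem he)
      rw [ev_map] at this
      exact this
    · exact h2 _ (List.mem_map_of_mem hr)
  · rintro ⟨h1, h2⟩
    refine ⟨fun e he => ?_, fun r hr => ?_⟩
    · obtain ⟨e', he', rfl⟩ := List.mem_map.mp he
      rw [ev_map]
      exact h1 _ he'
    · obtain ⟨r', hr', rfl⟩ := List.mem_map.mp hr
      exact h2 _ hr'

/-- renaming the variables injectively does not change the language -/
lemma lang_map {f : V → W} (hf : Function.Injective f) (w : V) (φ : CQ V A) :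
    lang (f w) (φ.map f) = lang w φ := by
  ext u
  constructor
  · rintro ⟨σ, h1, h2, h3⟩
    exact ⟨fun x => σ (f x), fun x => h1 _, (sat_map f φ σ).mp h2, h3⟩
  · rintro ⟨σ, h1, h2, h3⟩
    have h4 : (fun x => Function.extend f σ (fun _ => []) (f x)) = σ := by
      funext x
      exact hf.extend_apply _ _ _
    refine ⟨Function.extend f σ (fun _ => []), fun y => ?_, ?_, ?_⟩
    · rw [hf.extend_apply]
      by_cases hy : ∃ x, f x = y
      · obtain ⟨x, rfl⟩ := hy
        rw [hf.extend_apply]
        exact h1 x
      · rw [Function.extend_apply' _ _ _ hy]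
        exact List.nil_infix
    · rw [sat_map, h4]
      exact h2
    · rw [hf.extend_apply]
      exact h3

/-- a formula over countably many variables can be written with the variables `0, 1, 2, ...` -/
lemma exists_nat [Countable V] (w : V) (φ : CQ V A) : ∃ ψ : CQ ℕ A, lang 0 ψ = lang w φ := by
  obtain ⟨f, hf⟩ := exists_injective_nat V
  let g : V → ℕ := fun x => Equiv.swap (f w) 0 (f x)
  have hg : Function.Injective g := (Equiv.swap (f w) 0).injective.comp hf
  have hw : g w = 0 := Equiv.swap_apply_left _ _
  refine ⟨φ.map g, ?_⟩
  rw [← hw]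
  exact lang_map hg w φ

/-! ### regular expressions -/

section reg

variable [Fintype A]

/-- the letters of a set -/
noncomputable def anyOf (S : Finset A) : RegularExpression A :=
  (S.toList.map RegularExpression.char).sum

omit [Fintype A] in
lemma mem_sum_matches (l : List (RegularExpression A)) (x : List A) :
    x ∈ l.sum.matches' ↔ ∃ r ∈ l, x ∈ r.matches' := by
  induction l with
  | nil =>
    simp only [List.sum_nil, List.not_mem_nil, false_and, exists_false, iff_false]
    rw [RegularExpression.matches'_zero]
    exact Language.notMem_zero x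
  | cons r l ih =>
    rw [List.sum_cons, RegularExpression.matches'_add, Language.mem_add, ih]
    simp

lemma mem_anyOf (S : Finset A) (x : List A) : x ∈ (anyOf S).matches' ↔ ∃ a ∈ S, x = [a] := by
  unfold anyOf
  rw [mem_sum_matches]
  constructor
  · rintro ⟨r, hr, hx⟩
    obtain ⟨a, ha, rfl⟩ := List.mem_map.mp hr
    exact ⟨a, Finset.mem_toList.mp ha, hx⟩
  · rintro ⟨a, ha, rfl⟩
    exact ⟨_, List.mem_map_of_mem (Finset.mem_toList.mpr ha), rfl⟩

/-- any letter -/
noncomputable def letter (A : Type) [Fintype A] : RegularExpression A := anyOf Finset.univ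

lemma mem_letter (x : List A) : x ∈ (letter A).matches' ↔ x.length = 1 := by
  unfold letter
  rw [mem_anyOf]
  simp [List.length_eq_one_iff]

lemma mem_star_anyOf (S : Finset A) (x : List A) :
    x ∈ (anyOf S).star.matches' ↔ ∀ a ∈ x, a ∈ S := by
  rw [RegularExpression.matches'_star, Language.mem_kstar]
  constructor
  · rintro ⟨L, rfl, hL⟩ a ha
    obtain ⟨y, hy, hay⟩ := List.mem_flatten.mp ha
    obtain ⟨b, hb, rfl⟩ := (mem_anyOf S y).mp (hL y hy)
    rw [List.mem_singleton] at hay
    rw [hay]
    exact hb
  · intro h
    refine ⟨x.map fun a => [a], ?_, fun y hy => ?_⟩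
    · induction x with
      | nil => rfl
      | cons a x ih =>
        rw [List.map_cons, List.flatten_cons, ← ih fun b hb => h b (List.mem_cons_of_mem _ hb)]
        rfl
    · obtain ⟨a, ha, rfl⟩ := List.mem_map.mp hy
      exact (mem_anyOf S _).mpr ⟨a, h a ha, rfl⟩

/-- the words of even length -/
noncomputable def evenE (A : Type) [Fintype A] : RegularExpression A :=
  (letter A * letter A).star

lemma mem_evenE (x : List A) : x ∈ (evenE A).matches' ↔ Even x.length := by
  unfold evenE
  rw [RegularExpression.matches'_star, Language.mem_kstar]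
  constructor
  · rintro ⟨L, rfl, hL⟩
    induction L with
    | nil => simp
    | cons y L ih =>
      rw [List.flatten_cons, List.length_append]
      have h1 := hL y List.mem_cons_self
      rw [RegularExpression.matches'_mul, Language.mem_mul] at h1
      obtain ⟨a, ha, b, hb, rfl⟩ := h1
      rw [mem_letter] at ha hb
      refine Even.add ?_ (ih fun z hz => hL z (List.mem_cons_of_mem _ hz))
      rw [List.length_append, ha, hb]
      exact ⟨1, rfl⟩
  · intro h
    obtain ⟨n, hn⟩ := h
    induction n generalizing x with
    | zero =>
      have : x = [] := List.length_eq_zero_iff.mp (by omega)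
      exact ⟨[], by simp [this], by simp⟩
    | succ n ih =>
      obtain ⟨a, b, y, rfl⟩ : ∃ a b y, x = a :: b :: y := by
        rcases x with _ | ⟨a, _ | ⟨b, y⟩⟩
        · simp only [List.length_nil] at hn; omega
        · simp only [List.length_cons, List.length_nil] at hn; omega
        · exact ⟨a, b, y, rfl⟩
      obtain ⟨L, hL1, hL2⟩ := ih y (by simp only [List.length_cons] at hn; omega)
      refine ⟨[a, b] :: L, ?_, ?_⟩
      · rw [List.flatten_cons, ← hL1]
        rfl
      · intro z hz
        rcases List.mem_cons.mp hz with rfl | hz
        · rw [RegularExpression.matches'_mul, Language.mem_mul]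
          exact ⟨[a], (mem_letter _).mpr rfl, [b], (mem_letter _).mpr rfl, rfl⟩
        · exact hL2 z hz

/-- the words of length at most one -/
noncomputable def smallE (A : Type) [Fintype A] : RegularExpression A := 1 + letter A

lemma mem_smallE (x : List A) : x ∈ (smallE A).matches' ↔ x.length ≤ 1 := by
  unfold smallE
  rw [RegularExpression.matches'_add, Language.mem_add, mem_letter,
    RegularExpression.matches'_epsilon, Language.mem_one, ← List.length_eq_zero_iff]
  omega

/-- the empty word and the words of odd length -/
noncomputable def oddE (A : Type) [Fintype A] : RegularExpression A := 1 + letter A * evenE A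

lemma mem_oddE (x : List A) : x ∈ (oddE A).matches' ↔ x = [] ∨ Odd x.length := by
  unfold oddE
  rw [RegularExpression.matches'_add, Language.mem_add, RegularExpression.matches'_epsilon,
    Language.mem_one, RegularExpression.matches'_mul, Language.mem_mul]
  refine or_congr Iff.rfl ?_
  constructor
  · rintro ⟨a, ha, b, hb, rfl⟩
    rw [mem_letter] at ha
    rw [mem_evenE] at hb
    obtain ⟨k, hk⟩ := hb
    rw [List.length_append, ha, hk]
    exact ⟨k, by ring⟩
  · rintro ⟨k, hk⟩
    rcases x with _ | ⟨a, x⟩
    · simp at hk
    · refine ⟨[a], (mem_letter _).mpr rfl, x, (mem_evenE _).mpr ⟨k, ?_⟩, rfl⟩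
      rw [List.length_cons] at hk
      omega

/-- the letters and the words of even length -/
noncomputable def oneEvenE (A : Type) [Fintype A] : RegularExpression A := letter A + evenE A

lemma mem_oneEvenE (x : List A) :
    x ∈ (oneEvenE A).matches' ↔ x.length = 1 ∨ Even x.length := by
  unfold oneEvenE
  rw [RegularExpression.matches'_add, Language.mem_add, mem_letter, mem_evenE]

/-- the words without the letter `c` -/
noncomputable def noE (c : A) : RegularExpression A := by
  classical exact (anyOf (Finset.univ.erase c)).star

lemma mem_noE (c : A) (x : List A) : x ∈ (noE c).matches' ↔ c ∉ x := by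
  classical
  unfold noE
  rw [mem_star_anyOf]
  simp only [Finset.mem_erase, Finset.mem_univ, and_true]
  constructor
  · intro h hc
    exact h c hc rfl
  · intro h a ha hac
    rw [hac] at ha
    exact h ha

/-- the empty word and the words which end with their only letter `c` -/
noncomputable def firstE (c : A) : RegularExpression A := 1 + noE c * RegularExpression.char c

lemma mem_firstE (c : A) (x : List A) :
    x ∈ (firstE c).matches' ↔ x = [] ∨ ∃ y, c ∉ y ∧ x = y ++ [c] := by
  unfold firstE
  rw [RegularExpression.matches'_add, Language.mem_add, RegularExpression.matches'_epsilon,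
    Language.mem_one, RegularExpression.matches'_mul, Language.mem_mul]
  refine or_congr Iff.rfl ?_
  constructor
  · rintro ⟨a, ha, b, hb, rfl⟩
    rw [mem_noE] at ha
    have hb' : b = [c] := hb
    exact ⟨a, ha, by rw [hb']⟩
  · rintro ⟨y, hy, rfl⟩
    exact ⟨y, (mem_noE _ _).mpr hy, [c], rfl, rfl⟩

/-- the empty word and the letter `c` -/
def optE (c : A) : RegularExpression A := 1 + RegularExpression.char c

omit [Fintype A] in
lemma mem_optE (c : A) (x : List A) : x ∈ (optE c).matches' ↔ x = [] ∨ x = [c] := by
  unfold optE
  rw [RegularExpression.matches'_add, Language.mem_add, RegularExpression.matches'_epsilon,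
    Language.mem_one]
  exact Iff.rfl

/-- all words of length at least two and the words of length at most one in the set `F` -/
noncomputable def longE (F : Set (List A)) : RegularExpression A := by
  classical
  exact (((if [] ∈ F then 1 else 0) + anyOf (Finset.univ.filter fun a => [a] ∈ F)) +
    (letter A * (letter A * (anyOf Finset.univ).star)))

lemma mem_longE (F : Set (List A)) (x : List A) :
    x ∈ (longE F).matches' ↔ 2 ≤ x.length ∨ (x.length ≤ 1 ∧ x ∈ F) := by
  classical
  unfold longE
  rw [RegularExpression.matches'_add, Language.mem_add, RegularExpression.matches'_add,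
    Language.mem_add, mem_anyOf, RegularExpression.matches'_mul, Language.mem_mul]
  have h1 : x ∈ (if ([] : List A) ∈ F then (1 : RegularExpression A) else 0).matches' ↔
      x = [] ∧ x ∈ F := by
    split_ifs with h
    · rw [RegularExpression.matches'_epsilon, Language.mem_one]
      constructor
      · rintro rfl; exact ⟨rfl, h⟩
      · exact fun h => h.1
    · rw [RegularExpression.matches'_zero]
      constructor
      · exact fun h => absurd h (Language.notMem_zero x)
      · rintro ⟨rfl, h2⟩; exact absurd h2 h
  rw [h1]
  constructor
  · rintro ((⟨rfl, h⟩ | ⟨a, ha, rfl⟩) | ⟨a, ha, b, hb, rfl⟩)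
    · right; exact ⟨by simp, h⟩
    · right; exact ⟨by simp, (Finset.mem_filter.mp ha).2⟩
    · left
      rw [mem_letter] at ha
      rw [RegularExpression.matches'_mul, Language.mem_mul] at hb
      obtain ⟨c, hc, d, _, rfl⟩ := hb
      rw [mem_letter] at hc
      simp only [List.length_append, ha, hc]
      omega
  · rintro (h | ⟨h, hF⟩)
    · right
      rcases x with _ | ⟨a, _ | ⟨b, y⟩⟩
      · simp at h
      · simp at h
      · refine ⟨[a], (mem_letter _).mpr rfl, b :: y, ?_, rfl⟩
        rw [RegularExpression.matches'_mul, Language.mem_mul]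
        exact ⟨[b], (mem_letter _).mpr rfl, y, (mem_star_anyOf _ _).mpr fun _ _ => Finset.mem_univ _,
          rfl⟩
    · left
      rcases x with _ | ⟨a, _ | ⟨b, y⟩⟩
      · left; exact ⟨rfl, hF⟩
      · right; exact ⟨a, Finset.mem_filter.mpr ⟨Finset.mem_univ _, hF⟩, rfl⟩
      · simp at h

end reg

end Pool.Agent.W5h76.FC
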