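import Pool.Agent.W5h76.FC.Union

/-!
# Finite unions of languages of conjunctive queries
-/

namespace Pool.Agent.W5h76.FC

variable {A : Type}

/-- global variables -/
inductive GV where
  | w : GV
  | x : GV
  | y : GV
  | c : GV
  | x' : GV

/-- a code of the global variables -/
def GV.code : GV → ℕ
  | .w => 0
  | .x => 1
  | .y => 2
  | .c => 3
  | .x' => 4

instance : Countable GV := by
  have h : Function.Injective GV.code := by
    intro a b h
    cases a <;> cases b <;> simp [GV.code] at h <;> rfl
  exact h.countable

/-- the variables of the combined formula -/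
abbrev CV (ι A : Type) := GV ⊕ (ι × LV A)

/-- renaming of the variables of the `i`-th simulation -/
def emb {ι : Type} (i : ι) : Option (LV A) → CV ι A
  | none => Sum.inl GV.w
  | some l => Sum.inr (i, l)

variable [Fintype A]

/-- the combined formula: a switch selects one of the simulations -/
noncomputable def comb {ι : Type} (I : List ι) (Ψ : ι → CQ ℕ A) (F : Set (List A)) :
    CQ (CV ι A) A where
  eqs := [(Sum.inl GV.w, [Sum.inl (Sum.inl GV.x), Sum.inl (Sum.inl GV.y)]),
      (Sum.inl GV.x, [Sum.inl (Sum.inl GV.c), Sum.inl (Sum.inl GV.x')]),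
      (Sum.inl GV.c, I.map fun i => Sum.inl (Sum.inr (i, LV.s)))] ++
    I.flatMap fun i => ((branch (Ψ i)).map (emb i)).eqs
  regs := [(Sum.inl GV.x, oddE A), (Sum.inl GV.y, smallE A), (Sum.inl GV.c, smallE A),
      (Sum.inl GV.x', evenE A), (Sum.inl GV.w, longE F)] ++
    I.flatMap fun i => ((branch (Ψ i)).map (emb i)).regs

omit [Fintype A] in
lemma ev_switch {ι : Type} (I : List ι) (τ : CV ι A → List A) :
    ev τ (I.map fun i => Sum.inl (Sum.inr (i, LV.s))) = I.flatMap fun i => τ (Sum.inr (i, LV.s)) := by
  induction I with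
  | nil => rfl
  | cons i I ih => rw [List.map_cons, ev_cons_inl, ih, List.flatMap_cons]

lemma sat_comb {ι : Type} (I : List ι) (Ψ : ι → CQ ℕ A) (F : Set (List A)) (τ : CV ι A → List A) :
    Sat (comb I Ψ F) τ ↔
      (τ (Sum.inl GV.w) = τ (Sum.inl GV.x) ++ τ (Sum.inl GV.y) ∧
        τ (Sum.inl GV.x) = τ (Sum.inl GV.c) ++ τ (Sum.inl GV.x') ∧
        τ (Sum.inl GV.c) = I.flatMap fun i => τ (Sum.inr (i, LV.s))) ∧
      ((τ (Sum.inl GV.x) = [] ∨ Odd (τ (Sum.inl GV.x)).length) ∧
        (τ (Sum.inl GV.y)).length ≤ 1 ∧ (τ (Sum.inl GV.c)).length ≤ 1 ∧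
        Even (τ (Sum.inl GV.x')).length ∧
        (2 ≤ (τ (Sum.inl GV.w)).length ∨
          ((τ (Sum.inl GV.w)).length ≤ 1 ∧ τ (Sum.inl GV.w) ∈ F))) ∧
      ∀ i ∈ I, Sat (branch (Ψ i)) (fun o => τ (emb i o)) := by
  constructor
  · rintro ⟨h1, h2⟩
    refine ⟨⟨?_, ?_, ?_⟩, ⟨?_, ?_, ?_, ?_, ?_⟩, ?_⟩
    · have := h1 (Sum.inl GV.w, [Sum.inl (Sum.inl GV.x), Sum.inl (Sum.inl GV.y)]) (by simp [comb])
      simpa using this
    · have := h1 (Sum.inl GV.x, [Sum.inl (Sum.inl GV.c), Sum.inl (Sum.inl GV.x')]) (by simp [comb])
      simpa using this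
    · have := h1 (Sum.inl GV.c, I.map fun i => Sum.inl (Sum.inr (i, LV.s))) (by simp [comb])
      rw [ev_switch] at this
      exact this
    · exact (mem_oddE _).mp (h2 (Sum.inl GV.x, oddE A) (by simp [comb]))
    · exact (mem_smallE _).mp (h2 (Sum.inl GV.y, smallE A) (by simp [comb]))
    · exact (mem_smallE _).mp (h2 (Sum.inl GV.c, smallE A) (by simp [comb]))
    · exact (mem_evenE _).mp (h2 (Sum.inl GV.x', evenE A) (by simp [comb]))
    · exact (mem_longE _ _).mp (h2 (Sum.inl GV.w, longE F) (by simp [comb]))
    · intro i hi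
      rw [← sat_map]
      refine ⟨fun e he => h1 e ?_, fun r hr => h2 r ?_⟩
      · unfold comb
        refine List.mem_append_right _ ?_
        rw [List.mem_flatMap]
        exact ⟨i, hi, he⟩
      · unfold comb
        refine List.mem_append_right _ ?_
        rw [List.mem_flatMap]
        exact ⟨i, hi, hr⟩
  · rintro ⟨⟨e1, e2, e3⟩, ⟨r1, r2, r3, r4, r5⟩, hb⟩
    constructor
    · intro e he
      unfold comb at he
      rcases List.mem_append.mp he with he | he
      · simp only [List.mem_cons, List.not_mem_nil, or_false] at he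
        rcases he with rfl | rfl | rfl
        · simpa using e1
        · simpa using e2
        · rw [ev_switch]
          exact e3
      · obtain ⟨i, hi, he⟩ := List.mem_flatMap.mp he
        exact ((sat_map (emb i) (branch (Ψ i)) τ).mpr (hb i hi)).1 e he
    · intro r hr
      unfold comb at hr
      rcases List.mem_append.mp hr with hr | hr
      · simp only [List.mem_cons, List.not_mem_nil, or_false] at hr
        rcases hr with rfl | rfl | rfl | rfl | rfl
        · exact (mem_oddE _).mpr r1
        · exact (mem_smallE _).mpr r2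
        · exact (mem_smallE _).mpr r3
        · exact (mem_evenE _).mpr r4
        · exact (mem_longE _ _).mpr r5
      · obtain ⟨i, hi, hr⟩ := List.mem_flatMap.mp hr
        exact ((sat_map (emb i) (branch (Ψ i)) τ).mpr (hb i hi)).2 r hr

omit [Fintype A] in
lemma flatMap_single {ι : Type} [DecidableEq ι] (I : List ι) (hI : I.Nodup) {i0 : ι} (h0 : i0 ∈ I)
    (a : List A) : (I.flatMap fun i => if i = i0 then a else []) = a := by
  induction I with
  | nil => simp at h0
  | cons i I ih =>
    rw [List.flatMap_cons]
    obtain ⟨h1, h2⟩ := List.nodup_cons.mp hI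
    by_cases hi : i = i0
    · subst hi
      rw [if_pos rfl]
      have : (I.flatMap fun j => if j = i then a else []) = [] := by
        rw [List.flatMap_eq_nil_iff]
        intro j hj
        rw [if_neg]
        rintro rfl
        exact h1 hj
      rw [this, List.append_nil]
    · rw [if_neg hi, List.nil_append]
      exact ih h2 ((List.mem_cons.mp h0).resolve_left fun h => hi h.symm)

/-- the language of the combined formula -/
theorem lang_comb {ι : Type} (I : List ι) (hI : I.Nodup) (Ψ : ι → CQ ℕ A)
    (hΨ : ∀ i, ∀ r ∈ (Ψ i).regs, [] ∈ r.2.matches') :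
    lang (Sum.inl GV.w) (comb I Ψ {u | ∃ i ∈ I, u ∈ lang 0 (Ψ i)}) =
      {u | ∃ i ∈ I, u ∈ lang 0 (Ψ i)} := by
  classical
  ext u
  constructor
  · rintro ⟨τ, hsafe, hsat, rfl⟩
    rw [sat_comb] at hsat
    obtain ⟨⟨e1, e2, e3⟩, ⟨r1, r2, r3, r4, r5⟩, hb⟩ := hsat
    rcases r5 with r5 | ⟨_, r5⟩
    · have hx : (τ (Sum.inl GV.x)).length ≠ 0 := by
        intro h
        rw [e1, List.length_append] at r5
        omega
      have hx' : Odd (τ (Sum.inl GV.x)).length := by
        rcases r1 with r1 | r1
        · rw [r1] at hx
          simp at hx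
        · exact r1
      have hc : (τ (Sum.inl GV.c)).length = 1 := by
        rw [e2, List.length_append] at hx'
        obtain ⟨m, hm⟩ := hx'
        obtain ⟨n, hn⟩ := r4
        omega
      have hne : (I.flatMap fun i => τ (Sum.inr (i, LV.s))) ≠ [] := by
        intro h
        rw [h] at e3
        rw [e3] at hc
        simp at hc
      rw [Ne, List.flatMap_eq_nil_iff] at hne
      push Not at hne
      obtain ⟨i, hi, hs⟩ := hne
      have hs1 : (τ (Sum.inr (i, LV.s))).length = 1 := by
        have h1 : (τ (Sum.inr (i, LV.s))).length ≤ (τ (Sum.inl GV.c)).length := by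
          rw [e3]
          have h2 : (τ (Sum.inr (i, LV.s))) <:+: (I.flatMap fun i => τ (Sum.inr (i, LV.s))) := by
            obtain ⟨I1, I2, rfl⟩ := List.append_of_mem hi
            rw [List.flatMap_append, List.flatMap_cons]
            exact ⟨_, _, List.append_assoc _ _ _⟩
          exact h2.length_le
        have h3 : 0 < (τ (Sum.inr (i, LV.s))).length := List.length_pos_iff.mpr hs
        omega
      exact ⟨i, hi, branch_sound (τ := fun o => τ (emb i o)) (fun l => hsafe _) (hb i hi) hs1⟩
    · exact r5
  · rintro ⟨i0, hi0, hu⟩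
    by_cases hlen : 2 ≤ u.length
    · have hne : u ≠ [] := by
        rintro rfl
        simp at hlen
      have hex : ∀ i, ∃ τ : Option (LV A) → List A, τ none = u ∧
          τ (some LV.s) = (if i = i0 then u.take 1 else []) ∧
          (∀ l, τ l <:+: u) ∧ Sat (branch (Ψ i)) τ := by
        intro i
        by_cases hi : i = i0
        · subst hi
          rw [if_pos rfl]
          exact branch_active hu hne
        · rw [if_neg hi]
          exact branch_idle (hΨ i) u
      choose τ t1 t2 t3 t4 using hex
      obtain ⟨x, y, x', g1, g2, g3, g4⟩ : ∃ x y x' : List A, u = x ++ y ∧ x = u.take 1 ++ x' ∧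
          y.length ≤ 1 ∧ Even x'.length := by
        by_cases h : Even u.length
        · refine ⟨u.take (u.length - 1), u.drop (u.length - 1), (u.take (u.length - 1)).drop 1,
            (List.take_append_drop _ _).symm, ?_, ?_, ?_⟩
          · have h5 : u.take 1 = (u.take (u.length - 1)).take 1 := by
              rw [List.take_take]
              congr 1
              omega
            rw [h5, List.take_append_drop]
          · rw [List.length_drop]; omega
          · rw [List.length_drop, List.length_take]
            obtain ⟨k, hk⟩ := h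
            exact ⟨k - 1, by omega⟩
        · refine ⟨u, [], u.drop 1, (List.append_nil u).symm, (List.take_append_drop _ _).symm,
            by simp, ?_⟩
          rw [List.length_drop]
          rw [Nat.not_even_iff_odd] at h
          obtain ⟨k, hk⟩ := h
          exact ⟨k, by omega⟩
      have hc1 : (u.take 1).length = 1 := by
        rw [List.length_take]; omega
      let T : CV ι A → List A := Sum.elim
        (fun g => match g with
          | GV.w => u
          | GV.x => x
          | GV.y => y
          | GV.c => u.take 1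
          | GV.x' => x')
        (fun j => τ j.1 (some j.2))
      have hT : ∀ i, (fun o => T (emb i o)) = τ i := by
        intro i
        funext o
        rcases o with _ | l
        · exact (t1 i).symm
        · rfl
      refine ⟨T, ?_, ?_, rfl⟩
      · rintro (g | ⟨i, l⟩)
        · cases g with
          | w => exact List.infix_rfl
          | x =>
            show x <:+: u
            exact ⟨[], y, g1.symm⟩
          | y =>
            show y <:+: u
            exact ⟨x, [], by rw [List.append_nil]; exact g1.symm⟩
          | c => exact (List.take_prefix _ _).isInfix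
          | x' =>
            show x' <:+: u
            exact ⟨u.take 1, y, by rw [← g2]; exact g1.symm⟩
        · exact t3 i (some l)
      · rw [sat_comb]
        refine ⟨⟨g1, g2, ?_⟩, ⟨Or.inr ?_, g3, hc1.le, g4, Or.inl hlen⟩, ?_⟩
        · show u.take 1 = I.flatMap fun i => τ i (some LV.s)
          have : (fun i => τ i (some LV.s)) = fun i => if i = i0 then u.take 1 else [] := by
            funext i
            exact t2 i
          rw [this, flatMap_single I hI hi0]
        · show Odd x.length
          rw [g2, List.length_append, hc1]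
          obtain ⟨k, hk⟩ := g4
          exact ⟨k, by omega⟩
        · intro i _
          rw [hT]
          exact t4 i
    · have hex : ∀ i, ∃ τ : Option (LV A) → List A, τ none = u ∧ τ (some LV.s) = [] ∧
          (∀ l, τ l <:+: u) ∧ Sat (branch (Ψ i)) τ := fun i => branch_idle (hΨ i) u
      choose τ t1 t2 t3 t4 using hex
      let T : CV ι A → List A := Sum.elim
        (fun g => match g with
          | GV.w => u
          | GV.x => []
          | GV.y => u
          | GV.c => []
          | GV.x' => [])
        (fun j => τ j.1 (some j.2))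
      have hT : ∀ i, (fun o => T (emb i o)) = τ i := by
        intro i
        funext o
        rcases o with _ | l
        · exact (t1 i).symm
        · rfl
      refine ⟨T, ?_, ?_, rfl⟩
      · rintro (g | ⟨i, l⟩)
        · cases g with
          | w => exact List.infix_rfl
          | x => exact List.nil_infix
          | y => exact List.infix_rfl
          | c => exact List.nil_infix
          | x' => exact List.nil_infix
        · exact t3 i (some l)
      · rw [sat_comb]
        refine ⟨⟨rfl, rfl, ?_⟩, ⟨Or.inl rfl, ?_, ?_, ?_, Or.inr ⟨?_, ?_⟩⟩, ?_⟩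
        · show [] = I.flatMap fun i => τ i (some LV.s)
          symm
          rw [List.flatMap_eq_nil_iff]
          intro i _
          exact t2 i
        · show u.length ≤ 1
          omega
        · show ([] : List A).length ≤ 1
          simp
        · show Even ([] : List A).length
          simp
        · show u.length ≤ 1
          omega
        · exact ⟨i0, hi0, hu⟩
        · intro i _
          rw [hT]
          exact t4 i

/-- finite unions of formulas whose regular constraints allow the empty word -/
theorem union_nice (Ψ : List (CQ ℕ A)) (hΨ : ∀ ψ ∈ Ψ, ∀ r ∈ ψ.regs, [] ∈ r.2.matches') :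
    ∃ φ : CQ ℕ A, lang 0 φ = {u | ∃ ψ ∈ Ψ, u ∈ lang 0 ψ} := by
  obtain ⟨φ, hφ⟩ := exists_nat (Sum.inl GV.w)
    (comb (List.finRange Ψ.length) (fun i => Ψ.get i)
      {u | ∃ i ∈ List.finRange Ψ.length, u ∈ lang 0 (Ψ.get i)})
  refine ⟨φ, ?_⟩
  rw [hφ, lang_comb _ (List.nodup_finRange _) _ fun i => hΨ _ (List.get_mem _ _)]
  ext u
  constructor
  · rintro ⟨i, _, hu⟩
    exact ⟨_, List.get_mem _ _, hu⟩
  · rintro ⟨ψ, hψ, hu⟩
    obtain ⟨i, hi⟩ := List.mem_iff_get.mp hψ
    exact ⟨i, List.mem_finRange i, by rw [hi]; exact hu⟩

/-- every formula is a finite union of formulas whose regular constraints allow the empty word -/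
theorem split_nice : ∀ (n : ℕ) (V : Type) (_ : Countable V) (w : V) (E : List (V × List (V ⊕ A)))
    (R N : List (V × RegularExpression A)), R.length = n →
    (∀ r ∈ N, [] ∈ r.2.matches') →
    ∃ Ψ : List (CQ ℕ A), (∀ ψ ∈ Ψ, ∀ r ∈ ψ.regs, [] ∈ r.2.matches') ∧
      lang w (⟨E, R ++ N⟩ : CQ V A) = {u | ∃ ψ ∈ Ψ, u ∈ lang 0 ψ} := by
  intro n
  induction n with
  | zero =>
    intro V _ w E R N hR hN
    have hR' : R = [] := List.length_eq_zero_iff.mp hR
    subst hR'
    obtain ⟨f, hf⟩ := exists_injective_nat V
    let g : V → ℕ := fun x => Equiv.swap (f w) 0 (f x)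
    have hg : Function.Injective g := (Equiv.swap (f w) 0).injective.comp hf
    have hw : g w = 0 := Equiv.swap_apply_left _ _
    refine ⟨[(⟨E, [] ++ N⟩ : CQ V A).map g], ?_, ?_⟩
    · intro ψ hψ r hr
      rw [List.mem_singleton] at hψ
      subst hψ
      obtain ⟨r', hr', rfl⟩ := List.mem_map.mp hr
      exact hN r' hr'
    · rw [← lang_map hg w, hw]
      ext u
      simp
  | succ n ih =>
    intro V _ w E R N hR hN
    obtain ⟨⟨y, γ⟩, R', rfl⟩ : ∃ a R', R = a :: R' := by
      rcases R with _ | ⟨a, R'⟩
      · simp at hR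
      · exact ⟨a, R', rfl⟩
    have hR' : R'.length = n := by simpa using hR
    by_cases hγ : ([] : List A) ∈ γ.matches'
    · obtain ⟨Ψ, h1, h2⟩ := ih V inferInstance w E R' ((y, γ) :: N) hR' (by
        intro r hr
        rcases List.mem_cons.mp hr with rfl | hr
        · exact hγ
        · exact hN r hr)
      refine ⟨Ψ, h1, ?_⟩
      rw [← h2]
      ext u
      unfold lang Sat
      simp only [List.cons_append, List.mem_cons, List.mem_append, Set.mem_setOf_eq]
      constructor
      · rintro ⟨σ, s1, ⟨s2, s3⟩, s4⟩
        exact ⟨σ, s1, ⟨s2, fun r hr => s3 r (by tauto)⟩, s4⟩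
      · rintro ⟨σ, s1, ⟨s2, s3⟩, s4⟩
        exact ⟨σ, s1, ⟨s2, fun r hr => s3 r (by tauto)⟩, s4⟩
    · have hex : ∀ c : A, ∃ Ψ : List (CQ ℕ A), (∀ ψ ∈ Ψ, ∀ r ∈ ψ.regs, [] ∈ r.2.matches') ∧
          lang (some w) (⟨(some y, [Sum.inr c, Sum.inl none]) ::
            E.map (fun e => (some e.1, e.2.map (Sum.map some id))),
            R'.map (fun r => (some r.1, r.2)) ++
              ((some y, 1 + γ) :: N.map fun r => (some r.1, r.2))⟩ : CQ (Option V) A) =
            {u | ∃ ψ ∈ Ψ, u ∈ lang 0 ψ} := by
        intro c
        apply ih (Option V) inferInstance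
        · rw [List.length_map]; exact hR'
        · intro r hr
          rcases List.mem_cons.mp hr with rfl | hr
          · exact Or.inl rfl
          · obtain ⟨r', hr', rfl⟩ := List.mem_map.mp hr
            exact hN r' hr'
      choose Ψ h1 h2 using hex
      refine ⟨(Finset.univ : Finset A).toList.flatMap Ψ, ?_, ?_⟩
      · intro ψ hψ
        obtain ⟨c, _, hc⟩ := List.mem_flatMap.mp hψ
        exact h1 c ψ hc
      · have hU : {u | ∃ ψ ∈ (Finset.univ : Finset A).toList.flatMap Ψ, u ∈ lang 0 ψ} =
            {u | ∃ c : A, u ∈ {u | ∃ ψ ∈ Ψ c, u ∈ lang 0 ψ}} := by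
          ext u
          simp only [List.mem_flatMap, Finset.mem_toList, Finset.mem_univ, true_and,
            Set.mem_setOf_eq]
          constructor
          · rintro ⟨ψ, ⟨c, hc⟩, hu⟩
            exact ⟨c, ψ, hc, hu⟩
          · rintro ⟨c, ψ, hc, hu⟩
            exact ⟨ψ, ⟨c, hc⟩, hu⟩
        rw [hU]
        ext u
        constructor
        · rintro ⟨σ, s1, ⟨s2, s3⟩, rfl⟩
          have h5 := s3 (y, γ) (by simp)
          obtain ⟨c, z, hz⟩ : ∃ c z, σ y = c :: z := by
            rcases hy : σ y with _ | ⟨c, z⟩
            · rw [hy] at h5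
              exact absurd h5 hγ
            · exact ⟨c, z, rfl⟩
          refine ⟨c, ?_⟩
          rw [← h2 c]
          let τ : Option V → List A := fun o => match o with
            | none => z
            | some v => σ v
          refine ⟨τ, ?_, ⟨?_, ?_⟩, rfl⟩
          · intro o
            rcases o with _ | v
            · have h6 : z <:+: σ y := by
                rw [hz]
                exact (List.suffix_cons c z).isInfix
              exact h6.trans (s1 y)
            · exact s1 v
          · intro e he
            rcases List.mem_cons.mp he with rfl | he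
            · show σ y = ev τ [Sum.inr c, Sum.inl none]
              simp [τ, hz]
            · obtain ⟨e', he', rfl⟩ := List.mem_map.mp he
              rw [ev_map]
              exact s2 e' he'
          · intro r hr
            rcases List.mem_append.mp hr with hr | hr
            · obtain ⟨r', hr', rfl⟩ := List.mem_map.mp hr
              exact s3 r' (by simp [hr'])
            · rcases List.mem_cons.mp hr with rfl | hr
              · exact Or.inr h5
              · obtain ⟨r', hr', rfl⟩ := List.mem_map.mp hr
                exact s3 r' (by simp [hr'])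
        · rintro ⟨c, hu⟩
          rw [← h2 c] at hu
          obtain ⟨τ, s1, ⟨s2, s3⟩, rfl⟩ := hu
          refine ⟨fun v => τ (some v), fun v => s1 _, ⟨?_, ?_⟩, rfl⟩
          · intro e he
            have := s2 _ (List.mem_cons_of_mem _ (List.mem_map_of_mem he))
            rw [ev_map] at this
            exact this
          · intro r hr
            rcases List.mem_append.mp hr with hr | hr
            · rcases List.mem_cons.mp hr with rfl | hr
              · have h5 := s2 (some y, [Sum.inr c, Sum.inl none]) List.mem_cons_self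
                have h6 := s3 (some y, 1 + γ) (List.mem_append_right _ List.mem_cons_self)
                rcases h6 with h6 | h6
                · exfalso
                  have h7 : τ (some y) = [] := h6
                  simp only [ev_cons_inr, ev_cons_inl, ev_nil, List.append_nil] at h5
                  rw [h7] at h5
                  exact absurd h5 (by simp)
                · exact h6
              · exact s3 _ (List.mem_append_left _ (List.mem_map_of_mem hr))
            · exact s3 _ (List.mem_append_right _ (List.mem_cons_of_mem _ (List.mem_map_of_mem hr)))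

/-- **Finite unions of languages of conjunctive queries are languages of conjunctive queries.** -/
theorem union_closed (Φ : List (CQ ℕ A)) :
    ∃ φ : CQ ℕ A, lang 0 φ = {u | ∃ ψ ∈ Φ, u ∈ lang 0 ψ} := by
  have hex : ∀ φ : CQ ℕ A, ∃ Ψ : List (CQ ℕ A), (∀ ψ ∈ Ψ, ∀ r ∈ ψ.regs, [] ∈ r.2.matches') ∧
      lang 0 φ = {u | ∃ ψ ∈ Ψ, u ∈ lang 0 ψ} := by
    intro φ
    have h := split_nice φ.regs.length ℕ inferInstance 0 φ.eqs φ.regs [] rfl (by simp)
    rw [List.append_nil] at h
    exact h
  choose Ψ h1 h2 using hex
  obtain ⟨φ, hφ⟩ := union_nice (Φ.flatMap Ψ) (by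
    intro ψ hψ
    obtain ⟨χ, _, hχ⟩ := List.mem_flatMap.mp hψ
    exact h1 χ ψ hχ)
  refine ⟨φ, ?_⟩
  rw [hφ]
  ext u
  constructor
  · rintro ⟨ψ, hψ, hu⟩
    obtain ⟨χ, hχ, hψχ⟩ := List.mem_flatMap.mp hψ
    exact ⟨χ, hχ, by rw [h2 χ]; exact ⟨ψ, hψχ, hu⟩⟩
  · rintro ⟨χ, hχ, hu⟩
    rw [h2 χ] at hu
    obtain ⟨ψ, hψ, hu⟩ := hu
    exact ⟨ψ, List.mem_flatMap.mpr ⟨χ, hχ, hψ⟩, hu⟩

end Pool.Agent.W5h76.FC
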