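import Pool.Agent.W5h76.FC.Basic

/-!
# Unions of languages of conjunctive queries

The language of a conjunctive query which is simulated conditionally: the simulation is active when
a switch variable holds a letter and idle when it holds the empty word.
-/

namespace Pool.Agent.W5h76.FC

variable {A : Type}

/-- local variables of the conditional simulation -/
inductive LV (A : Type) where
  | s : LV A
  | r : LV A
  | r1 : LV A
  | r2 : LV A
  | t1 : LV A
  | t2 : LV A
  | v : ℕ → LV A
  | k : A → LV A
  | p : A → LV A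
  | p' : A → LV A
  | u : A → LV A

/-- a code of the local variables -/
def LV.code : LV A → ℕ × ℕ × Option A
  | .s => (0, 0, none)
  | .r => (1, 0, none)
  | .r1 => (2, 0, none)
  | .r2 => (3, 0, none)
  | .t1 => (4, 0, none)
  | .t2 => (5, 0, none)
  | .v n => (6, n, none)
  | .k a => (7, 0, some a)
  | .p a => (8, 0, some a)
  | .p' a => (9, 0, some a)
  | .u a => (10, 0, some a)

lemma LV.code_injective : Function.Injective (LV.code (A := A)) := by
  intro x y h
  cases x <;> cases y <;> simp [LV.code] at h <;> simp [h]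

instance [Countable A] : Countable (LV A) := LV.code_injective.countable

/-- the letters which occur in the equations -/
def consts (ψ : CQ ℕ A) : List A := ψ.eqs.flatMap fun e => e.2.filterMap Sum.getRight?

lemma mem_consts {ψ : CQ ℕ A} {a : A} : a ∈ consts ψ ↔ ∃ e ∈ ψ.eqs, Sum.inr a ∈ e.2 := by
  unfold consts
  simp only [List.mem_flatMap, List.mem_filterMap]
  constructor
  · rintro ⟨e, he, s, hs, hsa⟩
    refine ⟨e, he, ?_⟩
    rcases s with x | b
    · simp at hsa
    · simp at hsa
      rw [← hsa]
      exact hs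
  · rintro ⟨e, he, h⟩
    exact ⟨e, he, Sum.inr a, h, rfl⟩

variable [Fintype A]

/-- replacement of the symbols of a pattern by local variables -/
def tr : ℕ ⊕ A → Option (LV A) ⊕ A :=
  Sum.elim (fun n => Sum.inl (some (LV.v n))) (fun a => Sum.inl (some (LV.k a)))

/-- the conditional simulation of `ψ`; the variable `none` stands for the input word -/
noncomputable def branch (ψ : CQ ℕ A) : CQ (Option (LV A)) A where
  eqs := [(none, [Sum.inl (some LV.r), Sum.inl (some (LV.v 0))]),
      (some LV.r, [Sum.inl (some LV.r1), Sum.inl (some LV.r2)]),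
      (some LV.t1, [Sum.inl (some LV.s), Sum.inl (some LV.r1)]),
      (some LV.t2, [Sum.inl (some LV.s), Sum.inl (some LV.r2)])] ++
    (consts ψ).map (fun a => (some (LV.p a), [Sum.inl (some LV.s), Sum.inl (some (LV.p' a))])) ++
    (consts ψ).map (fun a => (some (LV.p a), [Sum.inl (some (LV.u a)), Sum.inl (some (LV.k a))])) ++
    ψ.eqs.map (fun e => (some (LV.v e.1), e.2.map tr))
  regs := [(some LV.r1, smallE A), (some LV.r2, evenE A), (some LV.t1, smallE A),
      (some LV.t2, oneEvenE A)] ++
    (consts ψ).map (fun a => (some (LV.p a), firstE a)) ++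
    (consts ψ).map (fun a => (some (LV.u a), noE a)) ++
    (consts ψ).map (fun a => (some (LV.k a), optE a)) ++
    ψ.regs.map (fun r => (some (LV.v r.1), r.2))

omit [Fintype A] in
lemma ev_tr (τ : Option (LV A) → List A) (α : List (ℕ ⊕ A))
    (h : ∀ a, Sum.inr a ∈ α → τ (some (LV.k a)) = [a]) :
    ev τ (α.map tr) = ev (fun n => τ (some (LV.v n))) α := by
  induction α with
  | nil => rfl
  | cons s α ih =>
    have ih' := ih fun a ha => h a (List.mem_cons_of_mem _ ha)
    rcases s with n | a
    · rw [List.map_cons]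
      show ev τ (Sum.inl _ :: _) = _
      rw [ev_cons_inl, ih', ev_cons_inl]
    · rw [List.map_cons]
      show ev τ (Sum.inl _ :: _) = _
      rw [ev_cons_inl, ih', ev_cons_inr, h a List.mem_cons_self]
      rfl

omit [Fintype A] in
lemma ev_tr_nil (τ : Option (LV A) → List A) (α : List (ℕ ⊕ A))
    (h1 : ∀ n, τ (some (LV.v n)) = []) (h2 : ∀ a, τ (some (LV.k a)) = []) :
    ev τ (α.map tr) = [] := by
  induction α with
  | nil => rfl
  | cons s α ih =>
    rcases s with n | a
    · rw [List.map_cons]
      show ev τ (Sum.inl _ :: _) = _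
      rw [ev_cons_inl, ih, h1]
      rfl
    · rw [List.map_cons]
      show ev τ (Sum.inl _ :: _) = _
      rw [ev_cons_inl, ih, h2]
      rfl

/-- the active simulation is sound -/
lemma branch_sound {ψ : CQ ℕ A} {τ : Option (LV A) → List A} (hsafe : ∀ l, τ l <:+: τ none)
    (hsat : Sat (branch ψ) τ) (hs : (τ (some LV.s)).length = 1) : τ none ∈ lang 0 ψ := by
  obtain ⟨h1, h2⟩ := hsat
  have e1 : τ none = τ (some LV.r) ++ τ (some (LV.v 0)) := by
    have := h1 (none, [Sum.inl (some LV.r), Sum.inl (some (LV.v 0))]) (by simp [branch])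
    simpa using this
  have e2 : τ (some LV.r) = τ (some LV.r1) ++ τ (some LV.r2) := by
    have := h1 (some LV.r, [Sum.inl (some LV.r1), Sum.inl (some LV.r2)]) (by simp [branch])
    simpa using this
  have e3 : τ (some LV.t1) = τ (some LV.s) ++ τ (some LV.r1) := by
    have := h1 (some LV.t1, [Sum.inl (some LV.s), Sum.inl (some LV.r1)]) (by simp [branch])
    simpa using this
  have e4 : τ (some LV.t2) = τ (some LV.s) ++ τ (some LV.r2) := by
    have := h1 (some LV.t2, [Sum.inl (some LV.s), Sum.inl (some LV.r2)]) (by simp [branch])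
    simpa using this
  have r2 : Even (τ (some LV.r2)).length :=
    (mem_evenE _).mp (h2 (some LV.r2, evenE A) (by simp [branch]))
  have r3 : (τ (some LV.t1)).length ≤ 1 :=
    (mem_smallE _).mp (h2 (some LV.t1, smallE A) (by simp [branch]))
  have r4 : (τ (some LV.t2)).length = 1 ∨ Even (τ (some LV.t2)).length :=
    (mem_oneEvenE _).mp (h2 (some LV.t2, oneEvenE A) (by simp [branch]))
  have z1 : τ (some LV.r1) = [] := by
    rw [e3, List.length_append, hs] at r3
    exact List.length_eq_zero_iff.mp (by omega)
  have z2 : τ (some LV.r2) = [] := by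
    rw [e4, List.length_append, hs] at r4
    obtain ⟨m, hm⟩ := r2
    rcases r4 with r4 | ⟨n, hn⟩
    · exact List.length_eq_zero_iff.mp (by omega)
    · omega
  have z3 : τ none = τ (some (LV.v 0)) := by
    rw [e1, e2, z1, z2]
    rfl
  have hk : ∀ a ∈ consts ψ, τ (some (LV.k a)) = [a] := by
    intro a ha
    have f1 : τ (some (LV.p a)) = τ (some LV.s) ++ τ (some (LV.p' a)) := by
      have := h1 (some (LV.p a), [Sum.inl (some LV.s), Sum.inl (some (LV.p' a))]) (by
        simp [branch, ha])
      simpa using this
    have f2 : τ (some (LV.p a)) = τ (some (LV.u a)) ++ τ (some (LV.k a)) := by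
      have := h1 (some (LV.p a), [Sum.inl (some (LV.u a)), Sum.inl (some (LV.k a))]) (by
        simp [branch, ha])
      simpa using this
    have f3 := (mem_firstE _ _).mp (h2 (some (LV.p a), firstE a) (by simp [branch, ha]))
    have f4 := (mem_noE _ _).mp (h2 (some (LV.u a), noE a) (by simp [branch, ha]))
    have f5 := (mem_optE _ _).mp (h2 (some (LV.k a), optE a) (by simp [branch, ha]))
    rcases f5 with f5 | f5
    · exfalso
      rcases f3 with f3 | ⟨y, _, f3⟩
      · simp only at f3
        rw [f3] at f1
        have h9 := congrArg List.length f1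
        rw [List.length_append, hs, List.length_nil] at h9
        omega
      · simp only at f3 f5 f4
        rw [f3, f5, List.append_nil] at f2
        apply f4
        rw [← f2]
        simp
    · exact f5
  refine ⟨fun n => τ (some (LV.v n)), fun n => ?_, ⟨fun e he => ?_, fun r hr => ?_⟩, z3.symm⟩
  · show τ (some (LV.v n)) <:+: τ (some (LV.v 0))
    rw [← z3]
    exact hsafe _
  · have := h1 (some (LV.v e.1), e.2.map tr) (by
      unfold branch
      refine List.mem_append_right _ ?_
      exact List.mem_map_of_mem he)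
    rw [ev_tr] at this
    · exact this
    · intro a ha
      exact hk a (mem_consts.mpr ⟨e, he, ha⟩)
  · exact h2 (some (LV.v r.1), r.2) (by
      unfold branch
      refine List.mem_append_right _ ?_
      exact List.mem_map_of_mem hr)

omit [Fintype A] in
lemma mem_of_ev {σ : ℕ → List A} {α : List (ℕ ⊕ A)} {a : A} (h : Sum.inr a ∈ α) : a ∈ ev σ α := by
  unfold ev
  rw [List.mem_flatMap]
  exact ⟨_, h, by simp⟩

/-- the active simulation is complete -/
lemma branch_active {ψ : CQ ℕ A} {u : List A} (hu : u ∈ lang 0 ψ) (hne : u ≠ []) :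
    ∃ τ : Option (LV A) → List A, τ none = u ∧ τ (some LV.s) = u.take 1 ∧
      (∀ l, τ l <:+: u) ∧ Sat (branch ψ) τ := by
  classical
  obtain ⟨σ, h1, ⟨h2, h3⟩, rfl⟩ := hu
  have hc : ∀ a ∈ consts ψ, a ∈ σ 0 := by
    intro a ha
    obtain ⟨e, he, hae⟩ := mem_consts.mp ha
    have h4 := mem_of_ev (σ := σ) hae
    rw [← h2 e he] at h4
    exact (h1 e.1).subset h4
  have hsplit : ∀ a : A, a ∈ σ 0 → ∃ y z, a ∉ y ∧ σ 0 = y ++ a :: z := by
    intro a ha
    obtain ⟨y, z, hy, hz⟩ := List.eq_append_cons_of_mem ha
    exact ⟨y, z, hz, hy⟩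
  have htotal : ∀ a : A, ∃ y z, a ∈ σ 0 → a ∉ y ∧ σ 0 = y ++ a :: z := by
    intro a
    by_cases ha : a ∈ σ 0
    · obtain ⟨y, z, h⟩ := hsplit a ha
      exact ⟨y, z, fun _ => h⟩
    · exact ⟨[], [], fun h => absurd h ha⟩
  choose y z hyz using htotal
  let τ : Option (LV A) → List A := fun l => match l with
    | none => σ 0
    | some LV.s => (σ 0).take 1
    | some LV.r => []
    | some LV.r1 => []
    | some LV.r2 => []
    | some LV.t1 => (σ 0).take 1
    | some LV.t2 => (σ 0).take 1
    | some (LV.v n) => σ n
    | some (LV.k a) => if a ∈ σ 0 then [a] else []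
    | some (LV.p a) => if a ∈ σ 0 then y a ++ [a] else []
    | some (LV.p' a) => if a ∈ σ 0 then (y a ++ [a]).drop 1 else []
    | some (LV.u a) => if a ∈ σ 0 then y a else []
  have hlen : ((σ 0).take 1).length = 1 := by
    rw [List.length_take]
    have : 0 < (σ 0).length := List.length_pos_iff.mpr hne
    omega
  have hpre : ∀ a ∈ σ 0, y a ++ [a] <+: σ 0 := by
    intro a ha
    rw [(hyz a ha).2]
    exact ⟨z a, by simp⟩
  refine ⟨τ, rfl, rfl, ?_, ?_, ?_⟩
  · intro l
    rcases l with _ | l
    · exact List.infix_rfl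
    · cases l with
      | s => exact (List.take_prefix _ _).isInfix
      | r => exact List.nil_infix
      | r1 => exact List.nil_infix
      | r2 => exact List.nil_infix
      | t1 => exact (List.take_prefix _ _).isInfix
      | t2 => exact (List.take_prefix _ _).isInfix
      | v n => exact h1 n
      | k a =>
        show (if a ∈ σ 0 then [a] else []) <:+: σ 0
        split_ifs with ha
        · exact ⟨y a, z a, by simp [← (hyz a ha).2]⟩
        · exact List.nil_infix
      | p a =>
        show (if a ∈ σ 0 then y a ++ [a] else []) <:+: σ 0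
        split_ifs with ha
        · exact (hpre a ha).isInfix
        · exact List.nil_infix
      | p' a =>
        show (if a ∈ σ 0 then (y a ++ [a]).drop 1 else []) <:+: σ 0
        split_ifs with ha
        · exact (List.drop_suffix _ _).isInfix.trans (hpre a ha).isInfix
        · exact List.nil_infix
      | u a =>
        show (if a ∈ σ 0 then y a else []) <:+: σ 0
        split_ifs with ha
        · exact (List.prefix_append _ _).isInfix.trans (hpre a ha).isInfix
        · exact List.nil_infix
  · intro e he
    simp only [branch, List.mem_append, List.mem_map, List.mem_cons, List.not_mem_nil,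
      or_false] at he
    rcases he with (((rfl | rfl | rfl | rfl) | ⟨a, ha, rfl⟩) | ⟨a, ha, rfl⟩) | ⟨e, he, rfl⟩
    · simp [τ]
    · simp [τ]
    · simp [τ]
    · simp [τ]
    · have ha' := hc a ha
      simp only [ev_cons_inl, ev_nil, List.append_nil]
      show (if a ∈ σ 0 then y a ++ [a] else []) =
        (σ 0).take 1 ++ (if a ∈ σ 0 then (y a ++ [a]).drop 1 else [])
      rw [if_pos ha', if_pos ha']
      have h5 : (σ 0).take 1 = (y a ++ [a]).take 1 := by
        obtain ⟨t, ht⟩ := hpre a ha'
        rw [← ht, List.take_append_of_le_length]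
        simp
      rw [h5, List.take_append_drop]
    · have ha' := hc a ha
      simp only [ev_cons_inl, ev_nil, List.append_nil]
      show (if a ∈ σ 0 then y a ++ [a] else []) =
        (if a ∈ σ 0 then y a else []) ++ (if a ∈ σ 0 then [a] else [])
      rw [if_pos ha', if_pos ha', if_pos ha']
    · show σ e.1 = ev τ (e.2.map tr)
      rw [ev_tr]
      · exact h2 e he
      · intro a ha
        show (if a ∈ σ 0 then [a] else []) = [a]
        rw [if_pos (hc a (mem_consts.mpr ⟨e, he, ha⟩))]
  · intro r hr
    simp only [branch, List.mem_append, List.mem_map, List.mem_cons, List.not_mem_nil,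
      or_false] at hr
    rcases hr with ((((rfl | rfl | rfl | rfl) | ⟨a, ha, rfl⟩) | ⟨a, ha, rfl⟩) | ⟨a, ha, rfl⟩) |
      ⟨r, hr, rfl⟩
    · exact (mem_smallE _).mpr (by simp [τ])
    · exact (mem_evenE _).mpr (by simp [τ])
    · exact (mem_smallE _).mpr (by show ((σ 0).take 1).length ≤ 1; omega)
    · exact (mem_oneEvenE _).mpr (Or.inl hlen)
    · have ha' := hc a ha
      refine (mem_firstE _ _).mpr (Or.inr ⟨y a, (hyz a ha').1, ?_⟩)
      show (if a ∈ σ 0 then y a ++ [a] else []) = y a ++ [a]
      rw [if_pos ha']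
    · have ha' := hc a ha
      refine (mem_noE _ _).mpr ?_
      show a ∉ (if a ∈ σ 0 then y a else [])
      rw [if_pos ha']
      exact (hyz a ha').1
    · have ha' := hc a ha
      refine (mem_optE _ _).mpr (Or.inr ?_)
      show (if a ∈ σ 0 then [a] else []) = [a]
      rw [if_pos ha']
    · exact h3 r hr

/-- the idle simulation is always possible -/
lemma branch_idle {ψ : CQ ℕ A} (hψ : ∀ r ∈ ψ.regs, [] ∈ r.2.matches') (u : List A) :
    ∃ τ : Option (LV A) → List A, τ none = u ∧ τ (some LV.s) = [] ∧
      (∀ l, τ l <:+: u) ∧ Sat (branch ψ) τ := by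
  classical
  obtain ⟨a1, a2, h1, h2, h3⟩ : ∃ a1 a2 : List A, u = a1 ++ a2 ∧ a1.length ≤ 1 ∧
      Even a2.length := by
    by_cases h : Even u.length
    · exact ⟨[], u, rfl, by simp, h⟩
    · refine ⟨u.take 1, u.drop 1, (List.take_append_drop _ _).symm, ?_, ?_⟩
      · rw [List.length_take]; omega
      · rw [List.length_drop]
        rw [Nat.not_even_iff_odd] at h
        obtain ⟨k, hk⟩ := h
        exact ⟨k, by omega⟩
  let τ : Option (LV A) → List A := fun l => match l with
    | none => u
    | some LV.r => u
    | some LV.r1 => a1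
    | some LV.r2 => a2
    | some LV.t1 => a1
    | some LV.t2 => a2
    | _ => []
  refine ⟨τ, rfl, rfl, ?_, ?_, ?_⟩
  · intro l
    rcases l with _ | l
    · exact List.infix_rfl
    · cases l with
      | r => exact List.infix_rfl
      | r1 => exact ⟨[], a2, by rw [h1]; rfl⟩
      | r2 => exact ⟨a1, [], by rw [h1]; simp [τ]⟩
      | t1 => exact ⟨[], a2, by rw [h1]; rfl⟩
      | t2 => exact ⟨a1, [], by rw [h1]; simp [τ]⟩
      | _ => exact List.nil_infix
  · intro e he
    simp only [branch, List.mem_append, List.mem_map, List.mem_cons, List.not_mem_nil,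
      or_false] at he
    rcases he with (((rfl | rfl | rfl | rfl) | ⟨a, ha, rfl⟩) | ⟨a, ha, rfl⟩) | ⟨e, he, rfl⟩
    · simp [τ]
    · simp [τ, h1]
    · simp [τ]
    · simp [τ]
    · simp [τ]
    · simp [τ]
    · show [] = ev τ (e.2.map tr)
      rw [ev_tr_nil]
      · intro n; rfl
      · intro a; rfl
  · intro r hr
    simp only [branch, List.mem_append, List.mem_map, List.mem_cons, List.not_mem_nil,
      or_false] at hr
    rcases hr with ((((rfl | rfl | rfl | rfl) | ⟨a, ha, rfl⟩) | ⟨a, ha, rfl⟩) | ⟨a, ha, rfl⟩) |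
      ⟨r, hr, rfl⟩
    · exact (mem_smallE _).mpr h2
    · exact (mem_evenE _).mpr h3
    · exact (mem_smallE _).mpr h2
    · exact (mem_oneEvenE _).mpr (Or.inr h3)
    · exact (mem_firstE _ _).mpr (Or.inl rfl)
    · exact (mem_noE _ _).mpr (by simp [τ])
    · exact (mem_optE _ _).mpr (Or.inl rfl)
    · exact hψ r hr

end Pool.Agent.W5h76.FC
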